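import Mathlib
import Pool.Agent.Hhelper68.Cover

/-!
The four-domain additive inequality for hyperbolic densities of plane domains.
-/

open Metric Set Complex Filter Topology
open Pool.Agent.Hhelper68

namespace Pool.Agent.Results.MP_14bd02_an.FourDomain

/-- For simply connected plane domains `D₁`, `D₂` and a common point `z`, the hyperbolic densities
satisfy `λ_{D₁ ∩ D₂}(z) + λ_{D₁ ∪ D₂}(z) ≤ λ_{D₁}(z) + λ_{D₂}(z)`. -/
theorem result (D₁ D₂ : Set ℂ) (hD₁o : IsOpen D₁) (hD₂o : IsOpen D₂)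
    (hD₁ : IsSimplyConnected D₁) (hD₂ : IsSimplyConnected D₂) (z : ℂ) (_hz : z ∈ D₁ ∩ D₂)
    (r₁ r₂ rcap rcup : ℝ) (h₁ : IsHypDensity D₁ z r₁) (h₂ : IsHypDensity D₂ z r₂)
    (hcap : IsHypDensity (connectedComponentIn (D₁ ∩ D₂) z) z rcap)
    (hcup : IsHypDensity (D₁ ∪ D₂) z rcup) :
    rcap + rcup ≤ r₁ + r₂ := by
  obtain ⟨P, hPd, hPm, hP0, hPr, hPl, -⟩ := hcup.exists_normalised
  obtain ⟨F₁, hF₁d, hF₁m, hF₁0, hF₁r, -, hF₁i⟩ := h₁.exists_normalised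
  obtain ⟨F₂, hF₂d, hF₂m, hF₂0, hF₂r, -, hF₂i⟩ := h₂.exists_normalised
  obtain ⟨Q, hQd, hQm, hQ0, hQr, hQl, -⟩ := hcap.exists_normalised
  have hF₁i := hF₁i hD₁o hD₁
  have hF₂i := hF₂i hD₂o hD₂
  have hda : ∀ {f : ℂ → ℂ}, DifferentiableOn ℂ f (ball 0 1) → HasDerivAt f (deriv f 0) 0 :=
    fun hf => ((hf 0 (by simp)).differentiableAt (isOpen_ball.mem_nhds (by simp))).hasDerivAt
  have hP' : ∀ {g : ℂ → ℂ}, g 0 = 0 → HasDerivAt P (deriv P 0) (g 0) := by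
    intro g hg
    rw [hg]; exact hda hPd
  -- lifts of the two Riemann maps
  have hlift : ∀ F : ℂ → ℂ, DifferentiableOn ℂ F (ball 0 1) → MapsTo F (ball 0 1) (D₁ ∪ D₂) →
      F 0 = z → InjOn F (ball 0 1) → ∃ G : ℂ → ℂ, Uni G ∧ (∀ x ∈ ball (0:ℂ) 1, P (G x) = F x) ∧
        ‖deriv F 0‖ = ‖deriv P 0‖ * ‖deriv G 0‖ := by
    intro F hFd hFm hF0 hFi
    obtain ⟨G, hGd, hGm, hG0, hG⟩ := hPl F hFd hFm hF0
    refine ⟨G, ⟨hGd, hGm, ?_, hG0⟩, hG, ?_⟩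
    · intro x hx y hy hxy
      apply hFi hx hy
      rw [← hG x hx, ← hG y hy, hxy]
    · have h3 : (P ∘ G) =ᶠ[𝓝 0] F := by
        filter_upwards [ball_mem_nhds (0:ℂ) one_pos] with x hx
        exact hG x hx
      rw [← h3.deriv_eq, ((hP' hG0).comp 0 (hda hGd)).deriv, norm_mul]
  obtain ⟨G₁, hG₁, hG₁F, hG₁r⟩ := hlift F₁ hF₁d (hF₁m.mono_right subset_union_left) hF₁0 hF₁i
  obtain ⟨G₂, hG₂, hG₂F, hG₂r⟩ := hlift F₂ hF₂d (hF₂m.mono_right subset_union_right) hF₂0 hF₂i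
  -- positivity
  have hP1 : 0 < ‖deriv P 0‖ := by
    rcases (norm_nonneg (deriv P 0)).eq_or_lt with h5 | h5
    · rw [← h5, mul_zero] at hPr; exact absurd hPr zero_ne_one
    · exact h5
  have hQ1 : 0 < ‖deriv Q 0‖ := by
    rcases (norm_nonneg (deriv Q 0)).eq_or_lt with h5 | h5
    · rw [← h5, mul_zero] at hQr; exact absurd hQr zero_ne_one
    · exact h5
  have hG₁p := hG₁.deriv_pos
  have hG₂p := hG₂.deriv_pos
  have ecup : rcup = 1 / ‖deriv P 0‖ := by rw [eq_div_iff hP1.ne']; exact hPr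
  have ecap : rcap = 1 / ‖deriv Q 0‖ := by rw [eq_div_iff hQ1.ne']; exact hQr
  have e₁ : r₁ = 1 / (‖deriv P 0‖ * ‖deriv G₁ 0‖) := by
    rw [eq_div_iff (by positivity), ← hG₁r]; exact hF₁r
  have e₂ : r₂ = 1 / (‖deriv P 0‖ * ‖deriv G₂ 0‖) := by
    rw [eq_div_iff (by positivity), ← hG₂r]; exact hF₂r
  -- the estimate for each parameter
  have key : ∀ ρ : ℝ, 0 < ρ → ρ < 1 →
      rcap ≤ 1 / ρ ^ 2 * (r₁ + (1 + ρ) ^ 2 / (4 * ρ) * (r₂ - rcup)) := by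
    intro ρ hρ0 hρ1
    obtain ⟨h, hhd, hh0, hhm, hhp, hhle⟩ := two_maps hρ0 hρ1 hG₁ hG₂
    have hhmaps : MapsTo h (ball 0 1) (ball 0 1) := by
      intro x hx
      obtain ⟨⟨u, hu, hu'⟩, -⟩ := hhm x hx
      rw [← hu']
      exact hG₁.maps hu
    have hHd : DifferentiableOn ℂ (fun x => P (h x)) (ball 0 1) := hPd.comp hhd hhmaps
    have hHm : MapsTo (fun x => P (h x)) (ball 0 1) (D₁ ∩ D₂) := by
      intro x hx
      obtain ⟨⟨u, hu, hu'⟩, ⟨v, hv, hv'⟩⟩ := hhm x hx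
      constructor
      · simp only
        rw [← hu', hG₁F u hu]; exact hF₁m hu
      · simp only
        rw [← hv', hG₂F v hv]; exact hF₂m hv
    have hH0 : P (h 0) = z := by rw [hh0, hP0]
    have hHcomp : MapsTo (fun x => P (h x)) (ball 0 1) (connectedComponentIn (D₁ ∩ D₂) z) := by
      have hpre : IsPreconnected ((fun x => P (h x)) '' ball 0 1) :=
        (convex_ball (0:ℂ) 1).isPreconnected.image _ hHd.continuousOn
      have hsub := hpre.subset_connectedComponentIn (x := z) ⟨0, by simp, hH0⟩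
        (image_subset_iff.mpr hHm)
      intro x hx
      exact hsub (mem_image_of_mem _ hx)
    obtain ⟨g, hgd, hgm, hg0, hg⟩ := hQl _ hHd hHcomp hH0
    have hg1 : ‖deriv g 0‖ ≤ 1 := Complex.norm_deriv_le_one_of_mapsTo_ball hgd
      (by rw [hg0]; exact hgm.mono_right ball_subset_closedBall) one_pos
    have hQ' : HasDerivAt Q (deriv Q 0) (g 0) := by
      rw [hg0]; exact hda hQd
    have h3 : (Q ∘ g) =ᶠ[𝓝 0] (P ∘ h) := by
      filter_upwards [ball_mem_nhds (0:ℂ) one_pos] with x hx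
      exact hg x hx
    have h4 : ‖deriv Q 0‖ * ‖deriv g 0‖ = ‖deriv P 0‖ * ‖deriv h 0‖ := by
      have h5 := h3.deriv_eq
      rw [(hQ'.comp 0 (hda hgd)).deriv, ((hP' hh0).comp 0 (hda hhd)).deriv] at h5
      have h6 := congrArg norm h5
      rwa [norm_mul, norm_mul] at h6
    have h5 : ‖deriv P 0‖ * ‖deriv h 0‖ ≤ ‖deriv Q 0‖ := by
      rw [← h4]; exact mul_le_of_le_one_right (norm_nonneg _) hg1
    calc rcap = 1 / ‖deriv Q 0‖ := ecap
      _ ≤ 1 / (‖deriv P 0‖ * ‖deriv h 0‖) := by gcongr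
      _ = 1 / ‖deriv P 0‖ * (1 / ‖deriv h 0‖) := by field_simp
      _ ≤ 1 / ‖deriv P 0‖ * (1 / ρ ^ 2 * (1 / ‖deriv G₁ 0‖ +
          (1 + ρ) ^ 2 / (4 * ρ) * (1 / ‖deriv G₂ 0‖ - 1))) := by gcongr
      _ = 1 / ρ ^ 2 * (r₁ + (1 + ρ) ^ 2 / (4 * ρ) * (r₂ - rcup)) := by
          rw [e₁, e₂, ecup]; field_simp
  have hlim : Tendsto (fun ρ : ℝ => 1 / ρ ^ 2 * (r₁ + (1 + ρ) ^ 2 / (4 * ρ) * (r₂ - rcup)))
      (𝓝[<] 1) (𝓝 (r₁ + (r₂ - rcup))) := by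
    have h1 : ContinuousAt
        (fun ρ : ℝ => 1 / ρ ^ 2 * (r₁ + (1 + ρ) ^ 2 / (4 * ρ) * (r₂ - rcup))) 1 := by
      refine ContinuousAt.mul ?_ ?_
      · exact ContinuousAt.div continuousAt_const (by fun_prop) (by norm_num)
      · refine continuousAt_const.add (ContinuousAt.mul ?_ continuousAt_const)
        exact ContinuousAt.div (by fun_prop) (by fun_prop) (by norm_num)
    have h3 := h1.tendsto.mono_left (nhdsWithin_le_nhds (s := Iio 1))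
    have e : (1 : ℝ) / 1 ^ 2 * (r₁ + (1 + 1) ^ 2 / (4 * 1) * (r₂ - rcup)) =
        r₁ + (r₂ - rcup) := by norm_num
    rwa [e] at h3
  have hfin : rcap ≤ r₁ + (r₂ - rcup) := by
    refine ge_of_tendsto hlim ?_
    filter_upwards [Ioo_mem_nhdsLT (show (0:ℝ) < 1 by norm_num)] with ρ hρ
    exact key ρ hρ.1 hρ.2
  linarith

end Pool.Agent.Results.MP_14bd02_an.FourDomain
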